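import Pool.Agent.H10.GM.Targets1

/-!
# PS: a large connected graph contains a long path or a vertex of large degree
-/

set_option autoImplicit false

namespace Pool.Agent.H70.GM

open Pool.Agent.H55.GW Pool.Agent.H10.GM

namespace PS

open Classical in
/-- the neighbours of `x` other than `x` -/
noncomputable def nb {N : ℕ} (R : Fin N → Fin N → Prop) (x : Fin N) : Finset (Fin N) :=
  Finset.univ.filter fun y => y ≠ x ∧ R x y

open Classical in
/-- the balls around `x0` -/
noncomputable def ball {N : ℕ} (R : Fin N → Fin N → Prop) (x0 : Fin N) : ℕ → Finset (Fin N)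
  | 0 => {x0}
  | n + 1 => ball R x0 n ∪ (ball R x0 n).biUnion (nb R)

theorem ball_mono {N : ℕ} (R : Fin N → Fin N → Prop) (x0 : Fin N) {m n : ℕ} (h : m ≤ n) :
    ball R x0 m ⊆ ball R x0 n := by
  induction n, h using Nat.le_induction with
  | base => exact Finset.Subset.refl _
  | succ n _ ih =>
    intro y hy
    rw [ball]
    exact Finset.mem_union_left _ (ih hy)

theorem ball_card {N : ℕ} (R : Fin N → Fin N → Prop) (x0 : Fin N) (r : ℕ)
    (h : ∀ x, (nb R x).card ≤ r) (n : ℕ) : (ball R x0 n).card ≤ (r + 1) ^ n := by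
  induction n with
  | zero => simp [ball]
  | succ n ih =>
    rw [ball]
    calc (ball R x0 n ∪ (ball R x0 n).biUnion (nb R)).card
        ≤ (ball R x0 n).card + ((ball R x0 n).biUnion (nb R)).card := Finset.card_union_le _ _
      _ ≤ (ball R x0 n).card + (ball R x0 n).card * r := by
          have := Finset.card_biUnion_le_card_mul (ball R x0 n) (nb R) r (fun x _ => h x)
          omega
      _ = (ball R x0 n).card * (r + 1) := by ring
      _ ≤ (r + 1) ^ n * (r + 1) := Nat.mul_le_mul_right _ ih
      _ = (r + 1) ^ (n + 1) := by rw [pow_succ]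

theorem ball_adj {N : ℕ} (R : Fin N → Fin N → Prop) (x0 : Fin N) {n : ℕ} {x y : Fin N}
    (hx : x ∈ ball R x0 n) (h : R x y) : y ∈ ball R x0 (n + 1) := by
  classical
  rw [ball]
  by_cases hxy : y = x
  · exact Finset.mem_union_left _ (hxy ▸ hx)
  · refine Finset.mem_union_right _ (Finset.mem_biUnion.2 ⟨x, hx, ?_⟩)
    simp [nb, hxy, h]

theorem ball_exists {N : ℕ} (R : Fin N → Fin N → Prop) (x0 y : Fin N)
    (h : Relation.ReflTransGen R x0 y) : ∃ n, y ∈ ball R x0 n := by
  induction h with
  | refl => exact ⟨0, by simp [ball]⟩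
  | tail _ hb ih =>
    obtain ⟨n, hn⟩ := ih
    exact ⟨n + 1, ball_adj R x0 hn hb⟩

theorem chain {N : ℕ} (R : Fin N → Fin N → Prop) (x0 : Fin N) (n : ℕ) : ∀ y : Fin N,
    y ∈ ball R x0 n → (∀ m < n, y ∉ ball R x0 m) → ∃ t : ℕ → Fin N, t n = y ∧
      (∀ i ≤ n, t i ∈ ball R x0 i ∧ ∀ m < i, t i ∉ ball R x0 m) ∧
      ∀ i < n, R (t i) (t (i + 1)) := by
  classical
  induction n with
  | zero =>
    intro y hy _
    refine ⟨fun _ => y, rfl, ?_, ?_⟩
    · intro i hi
      obtain rfl : i = 0 := by omega
      exact ⟨hy, fun m hm => absurd hm (by omega)⟩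
    · intro i hi; omega
  | succ n ih =>
    intro y hy hn
    have h1 : y ∉ ball R x0 n := hn n (by omega)
    rw [ball, Finset.mem_union] at hy
    rcases hy with hy | hy
    · exact absurd hy h1
    obtain ⟨z, hz, hzy⟩ := Finset.mem_biUnion.1 hy
    have hR : R z y := by
      simp [nb] at hzy
      exact hzy.2
    have hz2 : ∀ m < n, z ∉ ball R x0 m := by
      intro m hm hzm
      exact h1 (ball_mono R x0 (show m + 1 ≤ n by omega) (ball_adj R x0 hzm hR))
    obtain ⟨t, ht, h2, h3⟩ := ih z hz hz2
    refine ⟨fun i => if i ≤ n then t i else y, by simp, ?_, ?_⟩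
    · intro i hi
      by_cases hin : i ≤ n
      · simp only [hin, if_true]
        exact h2 i hin
      · obtain rfl : i = n + 1 := by omega
        simp only [hin, if_false]
        refine ⟨?_, hn⟩
        exact ball_adj R x0 hz hR
    · intro i hi
      by_cases hin : i < n
      · have h4 : i ≤ n := by omega
        have h5 : i + 1 ≤ n := by omega
        simp only [h4, h5, if_true]
        exact h3 i hin
      · obtain rfl : i = n := by omega
        have h4 : i ≤ i := le_refl _
        have h5 : ¬ i + 1 ≤ i := by omega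
        simp only [h4, h5, if_true, if_false]
        rw [ht]
        exact hR

end PS

open PS in
theorem pf_PS : T_PS := by
  classical
  intro r
  refine ⟨(r + 1) ^ r + 1, by positivity, ?_⟩
  intro R _ hcon
  by_cases hdeg : ∃ x, r ≤ (nb R x).card
  · right
    obtain ⟨x, hx⟩ := hdeg
    obtain ⟨S, hS, hSc⟩ := Finset.exists_subset_card_eq hx
    let e := S.equivFinOfCardEq hSc
    refine ⟨x, fun i => if h : i < r then (e.symm ⟨i, h⟩ : Fin _) else x, ?_, ?_⟩
    · intro i hi j hj hij
      simp only [hi, hj, dif_pos] at hij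
      have h1 := e.symm.injective (Subtype.ext hij)
      simpa using h1
    · intro i hi
      simp only [hi, dif_pos]
      have h1 := hS (e.symm ⟨i, hi⟩).2
      simp [nb] at h1
      exact h1
  · left
    push Not at hdeg
    have hle : ∀ x, (nb R x).card ≤ r := fun x => le_of_lt (hdeg x)
    let x0 : Fin ((r + 1) ^ r + 1) := ⟨0, by positivity⟩
    have h1 : ∃ y, y ∉ ball R x0 r := by
      by_contra hcon2
      push Not at hcon2
      have h2 : ball R x0 r = Finset.univ := Finset.eq_univ_iff_forall.2 hcon2
      have h3 := ball_card R x0 r hle r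
      rw [h2, Finset.card_univ, Fintype.card_fin] at h3
      omega
    obtain ⟨y, hy⟩ := h1
    have h2 := ball_exists R x0 y (hcon x0 y)
    have h3 : y ∈ ball R x0 (Nat.find h2) := Nat.find_spec h2
    have h4 : ∀ m < Nat.find h2, y ∉ ball R x0 m := fun m hm => Nat.find_min h2 hm
    have h5 : r < Nat.find h2 := by
      by_contra h6
      push Not at h6
      exact hy (ball_mono R x0 h6 h3)
    obtain ⟨t, _, h6, h7⟩ := chain R x0 _ y h3 h4
    refine ⟨t, ?_, ?_⟩
    · intro i hi j hj hij
      by_contra hne
      rcases lt_or_gt_of_ne hne with h | h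
      · exact (h6 j (by omega)).2 i h (hij ▸ (h6 i (by omega)).1)
      · exact (h6 i (by omega)).2 j h (hij ▸ (h6 j (by omega)).1)
    · intro i hi
      exact h7 i (by omega)

end Pool.Agent.H70.GM
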