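import Pool.Agent.H53.GM.Basic
import Pool.Agent.H53.GM.Targets2

/-!
# Board `gm2_modules`: row B1
-/

set_option autoImplicit false

namespace Pool.Agent.H70.GM

open Pool.Agent.H68.BP Pool.Agent.H58.SF Pool.Agent.H53.GC Pool.Agent.H53.GR Pool.Agent.H53.GM
open Classical

theorem pf_B1 : Pool.Agent.H53.GM.T_B1 := by
  rintro τ N k F I W W' C C' f hf ⟨W'', hW'', M, f', a, hv, h⟩
  refine ⟨W'', hW'', M, fun x => f' (f x), a, hv, ?_⟩
  intro g t hg b hb1 hb2
  obtain ⟨h1, h2⟩ := hf g t hg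
  have h3 := h (g.image f) t h1 b hb1 (by
    intro y hy
    obtain ⟨x, hx, rfl⟩ := Finset.mem_image.1 hy
    rw [h2 x hx]
    exact hb2 x hx)
  have h4 : (g.image f).image C'.pt = g.image C.pt := by
    rw [Finset.image_image]
    exact Finset.image_congr fun x hx => h2 x hx
  rw [h4] at h3
  exact h3

end Pool.Agent.H70.GM
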